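import Pool.Agent.Y67.HP.TailSum
import Pool.Agent.Y67.HP.Final

/-!
# Project C (helper716), job C1: tail of the second moment with exponent s

Port of `Pool.Agent.Y67.HP.tail_sum_of`.
-/

set_option autoImplicit false

namespace Pool.Agent.Y419.C

open Finset
open Pool.Agent.Y67.HP

variable {ι : Type*} [Fintype ι]

theorem tail_pow_of (s : ℕ) (hs : 1 ≤ s) (hZ : Z1 ι) (hk : s + 3 ≤ Fintype.card ι) :
    ∃ C : ℝ, 0 < C ∧ ∀ (B T : ℝ), 1 ≤ B → 1 ≤ T →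
      ∀ (Tl : Finset ((ι → ℤ) × (ι → ℤ))) (τ : (ι → ℤ) × (ι → ℤ) → ℝ),
      (∀ p ∈ Tl, (∀ i, |(p.1 i : ℝ)| ≤ B) ∧ (∀ i, |(p.2 i : ℝ)| ≤ B) ∧
        (∃ i j, p.1 i * p.2 j - p.1 j * p.2 i ≠ 0) ∧ T < τ p ∧
        ∃ (g : ℤ) (μ : ℝ), (∀ i j, g ∣ p.1 i * p.2 j - p.1 j * p.2 i) ∧
          (∀ i j, |((p.1 i * p.2 j - p.1 j * p.2 i : ℤ) : ℝ)| ≤ μ) ∧
          τ p * μ ≤ B ^ 2 * |(g : ℝ)|) →
      ∑ p ∈ Tl, τ p ^ s ≤ C * B ^ (2 * Fintype.card ι) / Real.sqrt T := by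
  classical
  set k := Fintype.card ι with hkdef
  have hk0 : (0 : ℝ) < k := by
    have : 0 < k := by omega
    exact_mod_cast this
  have hk4 : (4 : ℝ) ≤ k := by exact_mod_cast (by omega : 4 ≤ k)
  refine ⟨(C0 ι) ^ 2 * (6 * k) ^ 4 * (2 * k) ^ s *
    (2 * ((2 * k) ^ (k - 2 - s) * (2 * k) ^ (k - 2 - s))) + 1,
    ?_, ?_⟩
  · have h0 := C0_nonneg (ι := ι)
    positivity
  intro B T hB hT Tl τ hTl
  have hB0 : 0 < B := by linarith
  have hT0 : 0 < T := by linarith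
  have hsT : 1 ≤ Real.sqrt T := by
    rw [← Real.sqrt_one]; exact Real.sqrt_le_sqrt hT
  set X : ℝ := 2 * k * B with hX
  have hX0 : 0 ≤ X := by rw [hX]; positivity
  set Y : ℝ := 2 * k * B / Real.sqrt T with hY
  have hY0 : 0 ≤ Y := by rw [hY]; positivity
  set N := ⌊X⌋₊ with hN
  have hNX : (N : ℝ) ≤ X := Nat.floor_le hX0
  let P : Finset (ℕ × ℕ) := ((Finset.Icc 1 N) ×ˢ (Finset.Icc 1 N)).filter
      (fun p : ℕ × ℕ => (p.1 : ℝ) ≤ Y ∨ (p.2 : ℝ) ≤ Y)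
  let t : ℕ × ℕ → Finset ((ι → ℤ) × (ι → ℤ) × (ℤ × ℤ) × (ℤ × ℤ)) := fun p =>
    shell ι p.1 ×ˢ shell ι p.2 ×ˢ (cr X p.1 ×ˢ cr X p.1) ×ˢ (cr X p.2 ×ˢ cr X p.2)
  let S : Finset (Σ _ : ℕ × ℕ, (ι → ℤ) × (ι → ℤ) × (ℤ × ℤ) × (ℤ × ℤ)) := P.sigma t
  let ψ : (Σ _ : ℕ × ℕ, (ι → ℤ) × (ι → ℤ) × (ℤ × ℤ) × (ℤ × ℤ)) → (ι → ℤ) × (ι → ℤ) :=
    fun q => (fun i => q.2.2.2.1.1 * q.2.1 i + q.2.2.2.2.1 * q.2.2.1 i,
      fun i => q.2.2.2.1.2 * q.2.1 i + q.2.2.2.2.2 * q.2.2.1 i)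
  let g : (Σ _ : ℕ × ℕ, (ι → ℤ) × (ι → ℤ) × (ℤ × ℤ) × (ℤ × ℤ)) → ℝ :=
    fun q => (2 * k * B ^ 2 / (q.1.1 * q.1.2)) ^ s
  have hcov := sum_le_of_cover Tl S ψ (fun p => τ p ^ s) g
    (fun q _ => by simp only [g]; positivity) (by
    intro p hp
    obtain ⟨hxB, hzB, hne, hTτ, g', μ, hgd, hμ, hτ⟩ := hTl p hp
    obtain ⟨V, W, v, w, c₁, c₂, c₃, c₄, hV, hW, hv1, hv2, hw1, hw2, hxe, hze, h1, h3, h2, h4, hVB,
      hWB, hg⟩ := hZ p.1 p.2 hne B hxB hzB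
    obtain ⟨i, j, hij⟩ := hg g' hgd
    have hV1 : (1 : ℝ) ≤ V := by exact_mod_cast hV
    have hW1 : (1 : ℝ) ≤ W := by exact_mod_cast hW
    have hV0 : (0 : ℝ) < V := by linarith
    have hW0 : (0 : ℝ) < W := by linarith
    have hg'0 : g' ≠ 0 := by
      rintro rfl
      obtain ⟨i, j, h⟩ := hne
      exact h (zero_dvd_iff.1 (hgd i j))
    have hg'p : 0 < |(g' : ℝ)| := abs_pos.2 (by exact_mod_cast hg'0)
    have hτ0 : 0 < τ p := by linarith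
    have hmain : τ p * (V * W) ≤ 2 * k * B ^ 2 := by
      have h5 : |(g' : ℝ)| * (τ p * (V * W)) ≤ |(g' : ℝ)| * (2 * k * B ^ 2) := by
        calc |(g' : ℝ)| * (τ p * (V * W)) = τ p * (|(g' : ℝ)| * V * W) := by ring
          _ ≤ τ p * (2 * k * μ) := by
              refine mul_le_mul_of_nonneg_left (hij.trans ?_) hτ0.le
              exact mul_le_mul_of_nonneg_left (hμ i j) (by positivity)
          _ = 2 * k * (τ p * μ) := by ring
          _ ≤ 2 * k * (B ^ 2 * |(g' : ℝ)|) := mul_le_mul_of_nonneg_left hτ (by positivity)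
          _ = |(g' : ℝ)| * (2 * k * B ^ 2) := by ring
      exact le_of_mul_le_mul_left h5 hg'p
    refine ⟨⟨(V, W), (v, w, (c₁, c₃), (c₂, c₄))⟩, ?_, ?_, ?_⟩
    · simp only [S, P, t, Finset.mem_sigma, Finset.mem_filter, Finset.mem_product, Finset.mem_Icc]
      refine ⟨⟨⟨⟨hV, Nat.le_floor hVB⟩, ⟨hW, Nat.le_floor hWB⟩⟩, ?_⟩, mem_shell.2 ⟨hv1, hv2⟩,
        mem_shell.2 ⟨hw1, hw2⟩, ⟨mem_cr hV h1, mem_cr hV h3⟩, ⟨mem_cr hW h2, mem_cr hW h4⟩⟩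
      by_contra hcon
      rw [not_or, not_le, not_le] at hcon
      have h6 : Y * Y < V * W := mul_lt_mul'' hcon.1 hcon.2 hY0 hY0
      have h7 : Y * Y = 4 * k ^ 2 * B ^ 2 / T := by
        rw [hY, div_mul_div_comm, Real.mul_self_sqrt hT0.le]; ring
      rw [h7, div_lt_iff₀ hT0] at h6
      have h8 : (V : ℝ) * W * T < τ p * (V * W) := by
        have : 0 < (V : ℝ) * W := by positivity
        nlinarith
      have h9 : 2 * k * B ^ 2 ≤ 4 * k ^ 2 * B ^ 2 := by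
        have h10 : 0 ≤ 2 * (k : ℝ) * B ^ 2 * (2 * k - 1) :=
          mul_nonneg (by positivity) (by linarith)
        linarith
      linarith
    · refine Prod.ext ?_ ?_
      · funext i
        exact (hxe i).symm
      · funext i
        exact (hze i).symm
    · simp only [g]
      refine pow_le_pow_left₀ hτ0.le ?_ s
      rw [le_div_iff₀ (by positivity)]
      exact hmain)
  refine hcov.trans ?_
  rw [Finset.sum_sigma]
  have hfib : ∀ p ∈ P, ∑ q ∈ t p, g ⟨p, q⟩ ≤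
      (C0 ι) ^ 2 * (6 * k) ^ 4 * (2 * k) ^ s * B ^ (4 + 2 * s) *
        ((p.1 : ℝ) ^ (k - 3 - s) * (p.2 : ℝ) ^ (k - 3 - s)) := by
    intro p hp
    rw [Finset.mem_filter, Finset.mem_product, Finset.mem_Icc, Finset.mem_Icc] at hp
    obtain ⟨⟨⟨hp1, hp1N⟩, hp2, hp2N⟩, hpD⟩ := hp
    have hV0 : (0 : ℝ) < p.1 := by exact_mod_cast hp1
    have hW0 : (0 : ℝ) < p.2 := by exact_mod_cast hp2
    have hVX : (p.1 : ℝ) ≤ X := by
      have : (p.1 : ℝ) ≤ N := by exact_mod_cast hp1N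
      linarith
    have hWX : (p.2 : ℝ) ≤ X := by
      have : (p.2 : ℝ) ≤ N := by exact_mod_cast hp2N
      linarith
    simp only [g]
    rw [Finset.sum_const, nsmul_eq_mul]
    simp only [t, Finset.card_product, Nat.cast_mul]
    have a1 := card_shell_le (ι := ι) p.1 hp1
    have a2 := card_shell_le (ι := ι) p.2 hp2
    have a3 := card_cr hp1 hVX
    have a4 := card_cr hp2 hWX
    rw [← hkdef] at a1 a2
    have h0 := C0_nonneg (ι := ι)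
    have e : (C0 ι) ^ 2 * (6 * k) ^ 4 * (2 * k) ^ s * B ^ (4 + 2 * s) *
        ((p.1 : ℝ) ^ (k - 3 - s) * (p.2 : ℝ) ^ (k - 3 - s)) =
        ((C0 ι * (p.1 : ℝ) ^ (k - 1)) * ((C0 ι * (p.2 : ℝ) ^ (k - 1)) *
          (((3 * X / p.1) * (3 * X / p.1)) * ((3 * X / p.2) * (3 * X / p.2))))) *
          (2 * k * B ^ 2 / (p.1 * p.2)) ^ s := by
      have e1 : (p.1 : ℝ) ^ (k - 1) = (p.1 : ℝ) ^ (k - 3 - s) * ((p.1 : ℝ) ^ 2 * (p.1 : ℝ) ^ s) := by
        rw [← pow_add, ← pow_add]; congr 1; omega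
      have e2 : (p.2 : ℝ) ^ (k - 1) = (p.2 : ℝ) ^ (k - 3 - s) * ((p.2 : ℝ) ^ 2 * (p.2 : ℝ) ^ s) := by
        rw [← pow_add, ← pow_add]; congr 1; omega
      have e3 : B ^ (4 + 2 * s) = B ^ 4 * (B ^ 2) ^ s := by
        rw [pow_add, pow_mul]
      rw [e1, e2, e3, hX, div_pow, mul_pow (2 * (k : ℝ)) (B ^ 2) s, mul_pow (p.1 : ℝ) (p.2 : ℝ) s]
      field_simp
      ring
    rw [e]
    refine mul_le_mul_of_nonneg_right ?_ (by positivity)
    refine mul_le_mul a1 ?_ (by positivity) (by positivity)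
    refine mul_le_mul a2 ?_ (by positivity) (by positivity)
    exact mul_le_mul (mul_le_mul a3 a3 (by positivity) (by positivity))
      (mul_le_mul a4 a4 (by positivity) (by positivity)) (by positivity) (by positivity)
  refine (Finset.sum_le_sum hfib).trans ?_
  rw [← Finset.mul_sum]
  have hsum := sum_tail_two (k - 3 - s) N X Y hX0 hNX hY0
  have hk31 : k - 3 - s + 1 = k - 2 - s := by omega
  rw [hk31] at hsum
  have h0 := C0_nonneg (ι := ι)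
  refine (mul_le_mul_of_nonneg_left hsum (by positivity)).trans ?_
  have hYp : Y ^ (k - 2 - s) ≤ (2 * k * B) ^ (k - 2 - s) / Real.sqrt T := by
    rw [hY, div_pow]
    refine div_le_div_of_nonneg_left (by positivity) (by positivity) ?_
    exact le_self_pow₀ hsT (by omega)
  have h1 : 2 * (Y ^ (k - 2 - s) * X ^ (k - 2 - s)) ≤
      2 * ((2 * k * B) ^ (k - 2 - s) / Real.sqrt T * X ^ (k - 2 - s)) := by
    refine mul_le_mul_of_nonneg_left (mul_le_mul_of_nonneg_right hYp (by positivity))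
      (by norm_num)
  refine (mul_le_mul_of_nonneg_left h1 (by positivity)).trans ?_
  have hBp : B ^ (2 * k) = B ^ (4 + 2 * s) * (B ^ (k - 2 - s) * B ^ (k - 2 - s)) := by
    rw [← pow_add, ← pow_add]; congr 1; omega
  have e3 : (C0 ι) ^ 2 * (6 * k) ^ 4 * (2 * k) ^ s * B ^ (4 + 2 * s) *
      (2 * ((2 * k * B) ^ (k - 2 - s) / Real.sqrt T * X ^ (k - 2 - s))) =
      (C0 ι) ^ 2 * (6 * k) ^ 4 * (2 * k) ^ s * (2 * ((2 * k) ^ (k - 2 - s) * (2 * k) ^ (k - 2 - s))) *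
        B ^ (2 * k) / Real.sqrt T := by
    rw [hBp, hX, mul_pow (2 * (k : ℝ)) B]
    ring
  rw [e3]
  refine div_le_div_of_nonneg_right ?_ (by positivity)
  refine mul_le_mul_of_nonneg_right (by linarith) (by positivity)

end Pool.Agent.Y419.C
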