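import Pool.Agent.Y716.C.Defs
import Pool.Agent.Y419.C.TailCore

/-!
# Project C (helper716), job C1
-/

set_option autoImplicit false

namespace Pool.Agent.Y419.C

theorem tail_pow (ι : Type*) [Fintype ι] (s : ℕ) (hs : 1 ≤ s) (hk : s + 3 ≤ Fintype.card ι) :
    Pool.Agent.Y716.C.TailStmt ι s :=
  tail_pow_of s hs (Pool.Agent.Y67.HP.z1 ι) hk

end Pool.Agent.Y419.C
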